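import Mathlib
import Pool.Agent.H93.Cwh.FromStar
import Pool.Agent.H18.Star.Main

/-!
# MP_fbc0ff_gt: ZFC proves that there is a first countable `ℵ₁`-cwH space which is not cwH

`IsCWH κ X`: the points of every closed discrete subset of `X` of size at most `κ` have pairwise
disjoint open neighbourhoods. The space below is moreover Hausdorff and has a basis of clopen sets
(so it is zero-dimensional and completely regular).
-/

namespace Pool.Agent.Results.MP_fbc0ff_gt.ZFCCounterexample

open Cardinal Pool.Agent.H93.Cwh

theorem result : ∃ (X : Type) (_ : TopologicalSpace X),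
    FirstCountableTopology X ∧ T2Space X ∧
      TopologicalSpace.IsTopologicalBasis {s : Set X | IsClopen s} ∧
        IsCWH ℵ₁ X ∧ ∃ κ : Cardinal.{0}, ¬ IsCWH κ X :=
  exists_space_of_star (W := Pool.Agent.H18.Star.W2)
    (by rw [Pool.Agent.H18.Star.mk_W2]; exact aleph_lt_aleph.2 (by norm_num))
    Pool.Agent.H18.Star.star

end Pool.Agent.Results.MP_fbc0ff_gt.ZFCCounterexample
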